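import Pool.Agent.H14.QO7

set_option autoImplicit false
open Matrix Quaternion Pool.Agent.H14.QO

namespace Pool.Agent.Results.MP_87a692_al.Definite

theorem result (φ : ℍ[ℝ] →ₗ[ℝ] ℍ[ℝ]) (hm : ∀ x y, φ (x * y) = φ y * φ x) (hi : ∀ x, φ (φ x) = x)
    (hn : ∃ x, φ x ≠ star x) (n l : ℕ) (hl : 2 ≤ l) (A : ℕ → Matrix (Fin n) (Fin n) ℍ[ℝ])
    (hA : HypB φ l A) (hS : SBddB φ l A) (a : ℍ[ℝ])
    (ha : ∃ v : Fin l × Fin n → ℍ[ℝ], v ≠ 0 ∧ Cm l A *ᵥ v = fun i => v i * a)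
    (v : Fin l × Fin n → ℍ[ℝ]) (hv0 : v ≠ 0) (hv : (pm (Cm l A) a ^ (l * n)) *ᵥ v = 0) :
    (fun i => φ (v i)) ⬝ᵥ Gm l A *ᵥ v ≠ 0 :=
  final3 φ hm hi hn l hl A hA hS a ha v hv0 hv

end Pool.Agent.Results.MP_87a692_al.Definite
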